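import Pool.Agent.helper26.AP.SpecQ

/-!
# AP, row QP1: the size of `V`
-/

set_option autoImplicit false

namespace Pool.Agent.AP

open Finset NumberField Pool.Agent.helper3.FT Pool.Agent.helper47.RA Pool.Agent.T5

theorem QP1 : QP1_stmt := by
  intro p N Y r q hp hN hY hr hq
  have hr0 : (0 : ℝ) < r := by exact_mod_cast hr
  have hr1 : (1 : ℝ) ≤ r := by exact_mod_cast hr
  have hq0 : (0 : ℝ) < q := by exact_mod_cast hq
  constructor
  · unfold VV
    rw [Real.sqrt_le_iff]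
    refine ⟨by positivity, ?_⟩
    rw [div_pow, div_pow, mul_pow, Real.sq_sqrt (by positivity)]
    have h1 : (r : ℝ) ^ 3 ≤ (r : ℝ) ^ p := pow_le_pow_right₀ hr1 (by omega)
    have h2 : (r : ℝ) * (Y ^ p / (r : ℝ) ^ p) ≤ Y ^ p / (r : ℝ) ^ 2 := by
      rw [mul_div_assoc', div_le_div_iff₀ (by positivity) (by positivity)]
      have h3 : (0 : ℝ) ≤ Y ^ p := by positivity
      calc (r : ℝ) * Y ^ p * (r : ℝ) ^ 2 = Y ^ p * (r : ℝ) ^ 3 := by ring
        _ ≤ Y ^ p * (r : ℝ) ^ p := mul_le_mul_of_nonneg_left h1 h3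
    calc 4 * (r : ℝ) * (Y ^ p / (r : ℝ) ^ p) / N = (r * (Y ^ p / (r : ℝ) ^ p)) * (4 / N) := by ring
      _ ≤ (Y ^ p / (r : ℝ) ^ 2) * (4 / N) := mul_le_mul_of_nonneg_right h2 (by positivity)
      _ = 2 ^ 2 * (Y ^ p / N) / (r : ℝ) ^ 2 := by ring
  · unfold VV
    have h1 : (q : ℝ) ^ p = (q : ℝ) ^ (p - 2) * (q : ℝ) ^ 2 := by
      rw [← pow_add]
      have : p - 2 + 2 = p := by omega
      rw [this]
    have h2 : 4 * ((r * q ^ (p - 2) : ℕ) : ℝ) * (Y / ((r : ℝ) * q)) ^ p / (N / (q : ℝ) ^ 2) =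
        4 * (r : ℝ) * (Y / r) ^ p / N := by
      rw [div_pow, div_pow, mul_pow, h1]
      push_cast
      field_simp
    rw [h2]

end Pool.Agent.AP
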